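import Pool.Agent.Lib.P42fc32.Cases

/-!
# A connected cubic graph of girth 4 which is not a subgraph of a minimal Cayley graph

The graph consists of two copies of the graph which arises from `K_{3,3}` by subdividing one edge,
joined by an edge between the two subdividing vertices.
-/

set_option autoImplicit false

open Pool.Agent.Lib.P42fc32

namespace Pool.Agent.Results.MP_42fc32_co.GirthFour

universe u

/-- `S` generates the group and no proper subset of `S` does. -/
def IsMinGen {Γ : Type u} [Group Γ] (S : Set Γ) : Prop :=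
  Subgroup.closure S = ⊤ ∧ ∀ T : Set Γ, T ⊂ S → Subgroup.closure T ≠ ⊤

/-- The (undirected) Cayley graph: `a` and `b` are adjacent if `a⁻¹ b ∈ S` or `b⁻¹ a ∈ S`. -/
def cay {Γ : Type u} [Group Γ] (S : Set Γ) : SimpleGraph Γ where
  Adj a b := a ≠ b ∧ (a⁻¹ * b ∈ S ∨ b⁻¹ * a ∈ S)
  symm := ⟨fun _ _ h => ⟨h.1.symm, h.2.symm⟩⟩
  loopless := ⟨fun _ h => h.1 rfl⟩

/-- The edges of the graph. -/
def edges : List (Fin 14 × Fin 14) :=
  [(0, 2), (0, 3), (1, 2), (1, 3), (4, 2), (4, 3), (5, 0), (5, 1), (4, 6), (5, 6),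
    (7, 9), (7, 10), (8, 9), (8, 10), (11, 9), (11, 10), (12, 7), (12, 8), (11, 13), (12, 13),
    (6, 13)]

/-- The graph on 14 vertices. -/
def H : SimpleGraph (Fin 14) where
  Adj x y := (x, y) ∈ edges ∨ (y, x) ∈ edges
  symm := ⟨fun _ _ h => h.symm⟩
  loopless := ⟨by decide⟩

instance : DecidableRel H.Adj := fun x y =>
  inferInstanceAs (Decidable ((x, y) ∈ edges ∨ (y, x) ∈ edges))

theorem degree_H (v : Fin 14) : (H.neighborSet v).ncard = 3 := by
  rw [← SimpleGraph.coe_neighborFinset, Set.ncard_coe_finset]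
  revert v
  decide

theorem near (v : Fin 14) : ∃ x y, (H.Adj 6 x ∨ 6 = x) ∧ (H.Adj x y ∨ x = y) ∧
    (H.Adj y v ∨ y = v) := by
  revert v
  decide

theorem connected_H : H.Connected := by
  rw [SimpleGraph.connected_iff_exists_forall_reachable]
  refine ⟨6, fun v => ?_⟩
  have h : ∀ x y, (H.Adj x y ∨ x = y) → H.Reachable x y := by
    rintro x y (h | rfl)
    · exact h.reachable
    · exact SimpleGraph.Reachable.refl _
  obtain ⟨x, y, h1, h2, h3⟩ := near v
  exact (h _ _ h1).trans ((h _ _ h2).trans (h _ _ h3))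

theorem no_triangle : ∀ x y z, H.Adj x y → H.Adj y z → ¬ H.Adj x z := by
  decide

/-- a 4-cycle -/
def cyc : H.Walk 0 0 :=
  .cons (v := 2) (by decide) (.cons (v := 1) (by decide) (.cons (v := 3) (by decide)
    (.cons (v := 0) (by decide) .nil)))

theorem cyc_isCycle : cyc.IsCycle := by
  rw [SimpleGraph.Walk.isCycle_def]
  refine ⟨?_, ?_, ?_⟩
  · rw [SimpleGraph.Walk.isTrail_def]
    decide
  · decide
  · decide

theorem girth_H : H.girth = 4 := by
  have h1 : H.egirth ≤ 4 := by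
    have h := SimpleGraph.le_egirth.1 (le_refl H.egirth) 0 cyc cyc_isCycle
    exact h
  have h2 : 4 ≤ H.egirth := by
    rw [SimpleGraph.le_egirth]
    intro a w hw
    have h3 := hw.three_le_length
    have h4 : w.length ≠ 3 := by
      intro h5
      have h6 : ∃ (x : Fin 14) (v : H.Walk x x), v.IsCycle ∧ v.length = 3 := ⟨a, w, hw, h5⟩
      rw [← SimpleGraph.is3Clique_iff_exists_cycle_length_three] at h6
      obtain ⟨s, hs⟩ := h6
      rw [SimpleGraph.is3Clique_iff] at hs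
      obtain ⟨x, y, z, hxy, hxz, hyz, -⟩ := hs
      exact no_triangle x y z hxy hyz hxz
    have h5 : 4 ≤ w.length := by omega
    exact_mod_cast h5
  rw [SimpleGraph.girth, le_antisymm h1 h2]
  rfl

/-- A minimal generating set is independent. -/
theorem ind_of_min {Γ : Type u} [Group Γ] {S : Set Γ} (hS : IsMinGen S) : Ind S := by
  intro a ha h
  refine hS.2 (S \ {a}) ⟨Set.diff_subset, fun h1 => (h1 ha).2 rfl⟩ ?_
  rw [eq_top_iff, ← hS.1, Subgroup.closure_le]
  intro b hb
  by_cases hab : b = a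
  · rw [hab]; exact h
  · exact Subgroup.subset_closure ⟨hb, hab⟩

theorem exists_colour {Γ : Type u} [Group Γ] {S : Set Γ} {x y : Γ} (h : (cay S).Adj x y) :
    ∃ s ∈ S, Rl s x y := by
  rcases h.2 with h | h
  · exact ⟨_, h, Or.inl (by group)⟩
  · exact ⟨_, h, Or.inr (by group)⟩

/-- **A connected cubic graph of girth 4 which is not a subgraph of any minimal Cayley graph**, of a
finite or infinite group. -/
theorem result : ∃ H : SimpleGraph (Fin 14), H.Connected ∧ (∀ v, (H.neighborSet v).ncard = 3) ∧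
    H.girth = 4 ∧ ∀ (Γ : Type u) [Group Γ] (S : Set Γ), IsMinGen S → ¬ H.IsContained (cay S) := by
  refine ⟨H, connected_H, degree_H, girth_H, ?_⟩
  rintro Γ _ S hS ⟨φ⟩
  have hinj := φ.injective
  have hadj : ∀ x y, H.Adj x y → ∃ s ∈ S, Rl s (φ x) (φ y) := fun x y h =>
    exists_colour (φ.toHom.map_adj h)
  have hne : ∀ x y : Fin 14, x ≠ y → φ x ≠ φ y := fun x y h => hinj.ne h
  obtain ⟨e22, m1, r1⟩ := hadj 0 2 (by decide)
  obtain ⟨e23, m2, r2⟩ := hadj 0 3 (by decide)
  obtain ⟨e32, m3, r3⟩ := hadj 1 2 (by decide)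
  obtain ⟨e33, m4, r4⟩ := hadj 1 3 (by decide)
  obtain ⟨p2, m5, r5⟩ := hadj 4 2 (by decide)
  obtain ⟨p3, m6, r6⟩ := hadj 4 3 (by decide)
  obtain ⟨q2, m7, r7⟩ := hadj 5 0 (by decide)
  obtain ⟨q3, m8, r8⟩ := hadj 5 1 (by decide)
  obtain ⟨pw, m9, r9⟩ := hadj 4 6 (by decide)
  obtain ⟨qw, m10, r10⟩ := hadj 5 6 (by decide)
  refine main (a2 := φ 0) (a3 := φ 1) (b2 := φ 2) (b3 := φ 3) (p := φ 4) (q := φ 5) (w := φ 6)
    (e22 := e22) (e23 := e23) (e32 := e32) (e33 := e33) (p2 := p2) (p3 := p3) (q2 := q2) (q3 := q3)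
    (pw := pw) (qw := qw) (ind_of_min hS) ?_
  refine ⟨⟨hne _ _ (by decide), hne _ _ (by decide), hne _ _ (by decide), hne _ _ (by decide),
    hne _ _ (by decide), hne _ _ (by decide), hne _ _ (by decide)⟩, ⟨hne _ _ (by decide),
    hne _ _ (by decide), hne _ _ (by decide), hne _ _ (by decide)⟩, ⟨hne _ _ (by decide),
    hne _ _ (by decide), hne _ _ (by decide), hne _ _ (by decide), hne _ _ (by decide),
    hne _ _ (by decide)⟩, ⟨m1, m2, m3, m4, m5, m6, m7, m8, m9, m10⟩, r1, r2, r3, r4, r5, r6, r7, r8,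
    r9, r10⟩

end Pool.Agent.Results.MP_42fc32_co.GirthFour
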