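import Pool.Agent.Lib.P42tw.All
import Pool.Agent.Lib.P42tx.All

/-!
# The twinplex graph and the triplex graph are not subgraphs of minimal Cayley graphs

These are the two cubic graphs with 12 vertices and girth 5.
-/

set_option autoImplicit false

namespace Pool.Agent.Results.MP_42fc32_co.Twinplex

universe u

/-- `S` generates the group and no proper subset of `S` does. -/
def IsMinGen {Γ : Type u} [Group Γ] (S : Set Γ) : Prop :=
  Subgroup.closure S = ⊤ ∧ ∀ T : Set Γ, T ⊂ S → Subgroup.closure T ≠ ⊤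

/-- The (undirected) Cayley graph: `a` and `b` are adjacent if `a⁻¹ b ∈ S` or `b⁻¹ a ∈ S`. -/
def cay {Γ : Type u} [Group Γ] (S : Set Γ) : SimpleGraph Γ where
  Adj a b := a ≠ b ∧ (a⁻¹ * b ∈ S ∨ b⁻¹ * a ∈ S)
  symm := ⟨fun _ _ h => ⟨h.1.symm, h.2.symm⟩⟩
  loopless := ⟨fun _ h => h.1 rfl⟩

/-- The edges of the twinplex graph. -/
def twinEdges : List (Fin 12 × Fin 12) :=
  [(0, 1), (1, 2), (0, 3), (2, 4), (4, 3), (0, 5), (4, 6), (6, 5), (1, 7), (3, 8), (8, 7),
   (8, 9), (9, 5), (7, 10), (6, 10), (9, 11), (11, 10), (2, 11)]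

/-- The edges of the triplex graph. -/
def tripEdges : List (Fin 12 × Fin 12) :=
  [(0, 1), (1, 2), (0, 3), (2, 4), (4, 3), (0, 5), (5, 6), (6, 4), (3, 7), (6, 8), (8, 7),
   (1, 9), (9, 7), (2, 10), (10, 8), (10, 11), (11, 9), (5, 11)]

/-- The graph with a given list of edges. -/
def graphOf (l : List (Fin 12 × Fin 12)) : SimpleGraph (Fin 12) where
  Adj x y := x ≠ y ∧ ((x, y) ∈ l ∨ (y, x) ∈ l)
  symm := ⟨fun _ _ h => ⟨h.1.symm, h.2.symm⟩⟩
  loopless := ⟨fun _ h => h.1 rfl⟩

instance (l : List (Fin 12 × Fin 12)) : DecidableRel (graphOf l).Adj := fun x y =>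
  inferInstanceAs (Decidable (x ≠ y ∧ ((x, y) ∈ l ∨ (y, x) ∈ l)))

/-- The twinplex graph: the cubic graph of girth 5 with 12 vertices and 16 automorphisms. -/
def twinplex : SimpleGraph (Fin 12) := graphOf twinEdges

/-- The triplex graph: the cubic graph of girth 5 with 12 vertices and 18 automorphisms. -/
def triplex : SimpleGraph (Fin 12) := graphOf tripEdges

instance : DecidableRel twinplex.Adj := inferInstanceAs (DecidableRel (graphOf twinEdges).Adj)

instance : DecidableRel triplex.Adj := inferInstanceAs (DecidableRel (graphOf tripEdges).Adj)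

theorem degree_twin (v : Fin 12) : (twinplex.neighborSet v).ncard = 3 := by
  rw [← SimpleGraph.coe_neighborFinset, Set.ncard_coe_finset]
  revert v
  decide +kernel

theorem degree_trip (v : Fin 12) : (triplex.neighborSet v).ncard = 3 := by
  rw [← SimpleGraph.coe_neighborFinset, Set.ncard_coe_finset]
  revert v
  decide +kernel

theorem connected_of_near {H : SimpleGraph (Fin 12)}
    (near : ∀ v : Fin 12, ∃ x y, (H.Adj 0 x ∨ 0 = x) ∧ (H.Adj x y ∨ x = y) ∧
      (H.Adj y v ∨ y = v)) : H.Connected := by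
  rw [SimpleGraph.connected_iff_exists_forall_reachable]
  refine ⟨0, fun v => ?_⟩
  have h : ∀ x y, (H.Adj x y ∨ x = y) → H.Reachable x y := by
    rintro x y (h | rfl)
    · exact h.reachable
    · exact SimpleGraph.Reachable.refl _
  obtain ⟨x, y, h1, h2, h3⟩ := near v
  exact (h _ _ h1).trans ((h _ _ h2).trans (h _ _ h3))

theorem connected_twin : twinplex.Connected := connected_of_near (by decide +kernel)

theorem connected_trip : triplex.Connected := connected_of_near (by decide +kernel)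

theorem five_le_length {H : SimpleGraph (Fin 12)}
    (h3 : ∀ a b c, H.Adj a b → H.Adj b c → ¬ H.Adj c a)
    (h4 : ∀ a b c d, H.Adj a b → H.Adj b c → H.Adj c d → H.Adj d a → a = c ∨ b = d)
    {a : Fin 12} (w : H.Walk a a) (hw : w.IsCycle) : 5 ≤ w.length := by
  have hl := hw.three_le_length
  have hn := hw.support_nodup
  match w, hl, hn with
  | .cons e1 (.cons e2 (.cons e3 .nil)), _, _ => exact absurd e3 (h3 _ _ _ e1 e2)
  | .cons e1 (.cons e2 (.cons e3 (.cons e4 .nil))), _, hn =>
    exfalso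
    rcases h4 _ _ _ _ e1 e2 e3 e4 with h | h
    · simp [h] at hn
    · simp [h] at hn
  | .cons e1 (.cons e2 (.cons e3 (.cons e4 (.cons e5 w')))), _, _ =>
    simp only [SimpleGraph.Walk.length_cons]
    omega

theorem girth_of {H : SimpleGraph (Fin 12)}
    (h3 : ∀ a b c, H.Adj a b → H.Adj b c → ¬ H.Adj c a)
    (h4 : ∀ a b c d, H.Adj a b → H.Adj b c → H.Adj c d → H.Adj d a → a = c ∨ b = d)
    {a : Fin 12} (w : H.Walk a a) (hw : w.IsCycle) (hl : w.length = 5) : H.girth = 5 := by
  have h1 : H.egirth ≤ 5 := by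
    have h := SimpleGraph.le_egirth.1 (le_refl H.egirth) a w hw
    rw [hl] at h
    exact h
  have h2 : 5 ≤ H.egirth := by
    rw [SimpleGraph.le_egirth]
    intro b v hv
    exact_mod_cast five_le_length h3 h4 v hv
  rw [SimpleGraph.girth, le_antisymm h1 h2]
  rfl

/-- a 5-cycle -/
def cycTwin : twinplex.Walk 4 4 :=
  .cons (v := 3) (by decide) (.cons (v := 0) (by decide) (.cons (v := 1) (by decide)
    (.cons (v := 2) (by decide) (.cons (v := 4) (by decide) .nil))))

/-- a 5-cycle -/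
def cycTrip : triplex.Walk 4 4 :=
  .cons (v := 3) (by decide) (.cons (v := 0) (by decide) (.cons (v := 1) (by decide)
    (.cons (v := 2) (by decide) (.cons (v := 4) (by decide) .nil))))

theorem cycTwin_isCycle : cycTwin.IsCycle := by
  rw [SimpleGraph.Walk.isCycle_def]
  refine ⟨?_, ?_, ?_⟩
  · rw [SimpleGraph.Walk.isTrail_def]
    decide
  · decide
  · decide

theorem cycTrip_isCycle : cycTrip.IsCycle := by
  rw [SimpleGraph.Walk.isCycle_def]
  refine ⟨?_, ?_, ?_⟩
  · rw [SimpleGraph.Walk.isTrail_def]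
    decide
  · decide
  · decide

theorem girth_twin : twinplex.girth = 5 :=
  girth_of (by decide +kernel) (by decide +kernel) cycTwin cycTwin_isCycle rfl

theorem girth_trip : triplex.girth = 5 :=
  girth_of (by decide +kernel) (by decide +kernel) cycTrip cycTrip_isCycle rfl

/-- A minimal generating set is independent. -/
theorem ind_of_min {Γ : Type u} [Group Γ] {S : Set Γ} (hS : IsMinGen S) :
    ∀ a ∈ S, a ∉ Subgroup.closure (S \ {a}) := by
  intro a ha h
  refine hS.2 (S \ {a}) ⟨Set.sdiff_subset, fun h1 => (h1 ha).2 rfl⟩ ?_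
  rw [eq_top_iff, ← hS.1, Subgroup.closure_le]
  intro b hb
  by_cases hab : b = a
  · rw [hab]; exact h
  · exact Subgroup.subset_closure ⟨hb, hab⟩

/-- extension of a map of the vertices to the natural numbers -/
def ext {Γ : Type u} [Group Γ] (f : Fin 12 → Γ) (x : Nat) : Γ :=
  if h : x < 12 then f ⟨x, h⟩ else 1

theorem ext_inj {Γ : Type u} [Group Γ] {f : Fin 12 → Γ} (hf : Function.Injective f) :
    ∀ x < 12, ∀ y < 12, ext f x = ext f y → x = y := by
  intro x hx y hy h
  unfold ext at h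
  rw [dif_pos hx, dif_pos hy] at h
  exact congrArg Fin.val (hf h)

theorem ext_edges {Γ : Type u} [Group Γ] {S : Set Γ} {H : SimpleGraph (Fin 12)}
    {E : List (Nat × Nat)} (hE : ∀ e ∈ E, ∃ x y : Fin 12, x.val = e.1 ∧ y.val = e.2 ∧ H.Adj x y)
    {f : Fin 12 → Γ} (hf : ∀ x y, H.Adj x y → (cay S).Adj (f x) (f y)) :
    ∀ e ∈ E, ∃ s ∈ S, ext f e.2 = ext f e.1 * s ∨ ext f e.1 = ext f e.2 * s := by
  intro e he
  obtain ⟨x, y, hx, hy, h⟩ := hE e he
  have h1 : ext f e.1 = f x := by
    unfold ext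
    rw [dif_pos (hx ▸ x.isLt)]
    congr 1
    exact Fin.ext hx.symm
  have h2 : ext f e.2 = f y := by
    unfold ext
    rw [dif_pos (hy ▸ y.isLt)]
    congr 1
    exact Fin.ext hy.symm
  rw [h1, h2]
  rcases (hf x y h).2 with h3 | h3
  · exact ⟨_, h3, Or.inl (by group)⟩
  · exact ⟨_, h3, Or.inr (by group)⟩

theorem edges_twin : ∀ e ∈ Pool.Agent.Lib.P42tw.E,
    ∃ x y : Fin 12, x.val = e.1 ∧ y.val = e.2 ∧ twinplex.Adj x y := by
  decide +kernel

theorem edges_trip : ∀ e ∈ Pool.Agent.Lib.P42tx.E,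
    ∃ x y : Fin 12, x.val = e.1 ∧ y.val = e.2 ∧ triplex.Adj x y := by
  decide +kernel

/-- **Neither the twinplex graph nor the triplex graph is a subgraph of a minimal Cayley graph**
(of a finite or infinite group). -/
theorem result :
    (twinplex.Connected ∧ (∀ v, (twinplex.neighborSet v).ncard = 3) ∧ twinplex.girth = 5 ∧
      ∀ (Γ : Type u) [Group Γ] (S : Set Γ), IsMinGen S → ¬ twinplex.IsContained (cay S)) ∧
    (triplex.Connected ∧ (∀ v, (triplex.neighborSet v).ncard = 3) ∧ triplex.girth = 5 ∧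
      ∀ (Γ : Type u) [Group Γ] (S : Set Γ), IsMinGen S → ¬ triplex.IsContained (cay S)) := by
  refine ⟨⟨connected_twin, degree_twin, girth_twin, ?_⟩,
    ⟨connected_trip, degree_trip, girth_trip, ?_⟩⟩
  · rintro Γ _ S hS ⟨φ⟩
    exact Pool.Agent.Lib.P42tw.root (ind_of_min hS) (ext_inj φ.injective)
      (ext_edges edges_twin fun x y h => φ.toHom.map_adj h)
  · rintro Γ _ S hS ⟨φ⟩
    exact Pool.Agent.Lib.P42tx.root (ind_of_min hS) (ext_inj φ.injective)
      (ext_edges edges_trip fun x y h => φ.toHom.map_adj h)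

end Pool.Agent.Results.MP_42fc32_co.Twinplex
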